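import Pool.Agent.Lib.MP_96bed6_an.W.All
import Pool.Agent.Lib.MP_96bed6_an.W.Statement

/-!
# MP_96bed6_an: blow-up of smooth solutions of an incompressible active scalar equation of order zero with
supercritical dissipation

`Lib/MP_96bed6_an/Defs.lean` defines the velocity law `vel g`, the fractional Laplacian `fracLap` and the samplers
`IsSampler`, `Defs2.lean` the classical solutions `IsSolOn`, `W/Defs.lean` the smooth solutions `IsSmooth`, `BD` and `law`,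
`W/Statement.lean` the parts `LawProps`, `LocalWP`, `MaximalBlowup` of the statement.
-/

set_option autoImplicit false

open MeasureTheory Filter Topology Set
open scoped ENNReal ContDiff NNReal

noncomputable section

namespace Pool.Agent.Results.MP_96bed6_an.SmoothBlowup

open Pool.Agent.Lib.MP96bed6

theorem result :
    (∃ g : E → ℝ, IsSampler g) ∧
    ∀ g : E → ℝ, IsSampler g → LawProps g ∧
      ∀ (α κ : ℝ), 0 < α → α < 1 / 2 → 0 ≤ κ → ∃ c : ℝ, 0 < c ∧ LocalWP g α κ c ∧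
        ∀ M τ : ℝ, 0 < M → 0 < τ → ∃ (θ₁ : E → ℝ) (ε Ts : ℝ),
          ContDiff ℝ ∞ θ₁ ∧ HasCompactSupport θ₁ ∧ 0 < ε ∧ (∀ x, |θ₁ x| + ε ≤ M) ∧ 0 < Ts ∧ Ts < τ ∧
          ∀ θ₀ : E → ℝ, ContDiff ℝ ∞ θ₀ → HasCompactSupport θ₀ → (∀ x, |θ₀ x - θ₁ x| ≤ ε) →
            MaximalBlowup g α κ c Ts θ₀ := by
  refine ⟨aEXG, fun g hg => ⟨⟨fun θ η hθ hη a b x => aLIN g θ η hg hθ hη a b x,
    fun θ lam hlam x => aDIL g θ lam hlam x, fun θ hθ => aDIV g θ hg hθ,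
    fun θ R hR x hx => aCPS g θ hg R hR x hx, fun k => aTKB g hg k, aLPB g hg⟩, fun α κ hα hα2 hκ => ?_⟩⟩
  obtain ⟨c, hc, h1, h2, h3⟩ := aWPB3 g hg α κ hα hα2 hκ
  refine ⟨c, hc, ⟨h1, h2⟩, fun M τ hM hτ => ?_⟩
  obtain ⟨θ₁, ε, Ts, ha, hb, hε, hd, he, hf, hall⟩ := h3 M τ hM hτ
  exact ⟨θ₁, ε, Ts, ha, hb, hε, hd, he, hf, fun θ₀ hs hk hcl => (hall θ₀ hs hk hcl).1⟩

end Pool.Agent.Results.MP_96bed6_an.SmoothBlowup
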